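import Pool.Agent.K6.H25.MC.Main
import Pool.Agent.K6.H25.MC.NIL
import Pool.Agent.K6.H25.MC.Wfe
import Pool.Agent.K6.H25.MC.Cnt
import Pool.Agent.K6.H25.MC.MV
import Pool.Agent.K6.H25.MC.FLD
import Pool.Agent.K6.H25.MC.DM
import Pool.Agent.K6.H25.MC.Abs
import Pool.Agent.K6.H25.MC.Uni
import Pool.Agent.K6.H25.MC.BLK
import Pool.Agent.K6.H25.MC.REC
import Pool.Agent.K6.H25.MC.LIM
import Pool.Agent.K6.H25.MC.SYS
import Pool.Agent.K6.H25.MC.TRV1
import Pool.Agent.K6.H25.MC.TRV2

/-!
# MP_b4ed41_an: multiple correlation sequences which are not integrals of nilsequences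

Frantzikinakis asked whether every multiple correlation sequence
`C (n₁, …, n_ℓ) = ∫ f₀ · T₁ ^ n₁ f₁ ⋯ T_ℓ ^ n_ℓ f_ℓ dμ` of commuting measure preserving
transformations is an integral `∫ N_y (n₁, …, n_ℓ) dσ(y)` of multi-variable nilsequences with respect
to a complex measure. We prove that the answer is negative, already for three transformations on the
diagonal `n₁ = n₂ = n₃`, for nilsequences of all steps (even of unbounded step), and even up to an
error `1 / 10`. As usual the functions defining the nilsequences are continuous and the sup norms of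
the `N_y` are integrable; the theorem also records that without either of these two requirements the
statement holds trivially for every bounded (every) sequence.

The counterexample is a product of finite blocks. In each block the two commuting maps are rotations
`A`, `B` of two finite abelian groups of digits modulo `p` and modulo `p'` (`p ≠ p'` large primes),
the third one is `A B`, and the function is built from a family of matching vectors modulo `p p'` of
degree less than `max p p'` (Grolmusz, Efremenko, Briët and Labib): at the time of a vector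
`b ∈ {1, …, q} ^ n`, `n = p p' - 1`, the mixed difference of the function sees only the sign chosen
for `b`. The times are sums of local terms of degree less than `max p p'`; hence a nilsequence of step
`k < min p p'` sees at these times only finitely many colours, each independent of one of the
coordinates of `b`, and random signs are uncorrelated with all functions of these colours.
-/

set_option autoImplicit false

open MeasureTheory Filter Topology
open scoped Manifold ContDiff

namespace Pool.Agent.Results.MP_b4ed41_an.NoIntegralRepresentation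

/-- **Basic `k`-step nilsequence in `ℓ` variables.** `G` is a (real, finite dimensional, Hausdorff)
Lie group which is nilpotent of class at most `k`, `Γ` is a discrete cocompact subgroup, `F` is a
continuous function on `G / Γ`, `b₁, …, b_ℓ ∈ G`, `z ∈ G / Γ`, and
`ψ (n₁, …, n_ℓ) = F (b₁ ^ n₁ ⋯ b_ℓ ^ n_ℓ z)`. -/
def IsBasicNilsequence (ℓ k : ℕ) (ψ : (Fin ℓ → ℤ) → ℂ) : Prop :=
  ∃ (V : Type) (_ : NormedAddCommGroup V) (_ : NormedSpace ℝ V) (_ : FiniteDimensional ℝ V)
    (G : Type) (_ : Group G) (_ : TopologicalSpace G) (_ : T2Space G) (_ : ChartedSpace V G)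
    (_ : LieGroup 𝓘(ℝ, V) ∞ G) (Γ : Subgroup G),
    (⊤ : Subgroup G).lowerCentralSeries k = ⊥ ∧ DiscreteTopology Γ ∧ CompactSpace (G ⧸ Γ) ∧
    ∃ (F : G ⧸ Γ → ℂ) (b : Fin ℓ → G) (z : G ⧸ Γ), Continuous F ∧
      ∀ n : Fin ℓ → ℤ, ψ n = F ((List.ofFn fun i => b i ^ n i).prod • z)

/-- **Generalized multi-variable nilsequence**: a uniform limit of basic nilsequences in `ℓ`
variables, where the steps of the approximating basic nilsequences may be unbounded. All
`k`-step nilsequences in `ℓ` variables, for all `k`, are of this kind. -/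
def IsNilsequence (ℓ : ℕ) (ψ : (Fin ℓ → ℤ) → ℂ) : Prop :=
  ∀ ε : ℝ, 0 < ε → ∃ (k : ℕ) (ψ' : (Fin ℓ → ℤ) → ℂ),
    IsBasicNilsequence ℓ k ψ' ∧ ∀ n, ‖ψ n - ψ' n‖ ≤ ε

/-- **Multiple correlation sequence** `∫ f₀ · T₁ ^ n₁ f₁ ⋯ T_ℓ ^ n_ℓ f_ℓ dμ`. -/
noncomputable def correlation {X : Type} [MeasurableSpace X] (μ : Measure X) {ℓ : ℕ}
    (T : Fin ℓ → Equiv.Perm X) (f : Fin (ℓ + 1) → X → ℂ) (n : Fin ℓ → ℤ) : ℂ :=
  ∫ x, f 0 x * ∏ i : Fin ℓ, f i.succ ((T i ^ n i) x) ∂μ

/-- The sequence `c` is, up to an error of at most `1 / 10` at every `k ≥ 0`, the diagonal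
`k ↦ ∫ N_y (k, …, k) dσ(y)` of an integral of nilsequences in `ℓ` variables with respect to a complex
measure `σ = h ν` on a measurable space `Y`, where `y ↦ N_y (n)` is measurable for every `n` and
`∫ sup_n |N_y (n)| d|σ|(y) < ∞`. -/
def ApproxIntegral (ℓ : ℕ) (c : ℕ → ℂ) : Prop :=
  ∃ (Y : Type) (_ : MeasurableSpace Y) (ν : Measure Y) (h : Y → ℂ) (N : Y → (Fin ℓ → ℤ) → ℂ),
    AEMeasurable h ν ∧ (∀ n, AEMeasurable (fun y => N y n) ν) ∧ (∀ᵐ y ∂ν, IsNilsequence ℓ (N y)) ∧
    ∫⁻ y, (⨆ n, ‖N y n‖ₑ) * ‖h y‖ₑ ∂ν ≠ ⊤ ∧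
    ∀ k : ℕ, ‖c k - ∫ y, N y (fun _ => (k : ℤ)) * h y ∂ν‖ ≤ 1 / 10

open Pool.Agent.K6.H25.MC

theorem basic_one_three {k : ℕ} {ψ : (Fin 1 → ℤ) → ℂ} (h : IsBasicNilsequence 1 k ψ) :
    IsBasicNilsequence 3 k (fun n => ψ (fun _ => n 0)) := by
  obtain ⟨V, i1, i2, i3, G, i4, i5, i6, i7, i8, Γ, hk, hd, hc, F, b, z, hF, hψ⟩ := h
  refine ⟨V, i1, i2, i3, G, i4, i5, i6, i7, i8, Γ, hk, hd, hc, F, ![b 0, 1, 1], z, hF,
    fun n => ?_⟩
  show ψ (fun _ => n 0) = _
  rw [hψ]
  simp [List.ofFn_succ]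

theorem nil_one_three {ψ : (Fin 1 → ℤ) → ℂ} (h : IsNilsequence 1 ψ) :
    IsNilsequence 3 (fun n => ψ (fun _ => n 0)) := by
  intro ε hε
  obtain ⟨k, ψ', hb, hψ'⟩ := h ε hε
  exact ⟨k, _, basic_one_three hb, fun n => hψ' _⟩

theorem approx_one_three {c : ℕ → ℂ} (h : ApproxIntegral 1 c) : ApproxIntegral 3 c := by
  obtain ⟨Y, iY, ν, h, N, mh, mN, hN, hfin, happ⟩ := h
  refine ⟨Y, iY, ν, h, fun y n => N y (fun _ => n 0), mh, fun n => mN _, ?_, ?_, happ⟩
  · filter_upwards [hN] with y hy
    exact nil_one_three hy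
  · refine ne_top_of_le_ne_top hfin (lintegral_mono fun y => ?_)
    gcongr
    exact iSup_le fun n => le_iSup (fun n => ‖N y n‖ₑ) _

/-- **Negative answer to Q1.** There are three commuting invertible measure preserving
transformations of a probability space and functions bounded by one for which the correlation
sequence is not an integral of nilsequences in three variables (nor, on the diagonal, of nilsequences
in one variable) of any steps, even up to an error `1 / 10` and even only on the diagonal. The last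
two parts record that for the two weaker readings of the question (`F` only Riemann integrable, or no
integrability of the sup norms) the representation holds trivially for all (bounded) sequences. -/
theorem result :
    (∃ (X : Type) (_ : MeasurableSpace X) (μ : Measure X) (_ : IsProbabilityMeasure μ)
      (T : Fin 3 → Equiv.Perm X) (f : Fin 4 → X → ℂ),
      (∀ i, MeasurePreserving (T i) μ μ) ∧ (∀ i, MeasurePreserving (T i).symm μ μ) ∧
      (∀ i j, Commute (T i) (T j)) ∧ (∀ i, Measurable (f i)) ∧ (∀ i x, ‖f i x‖ ≤ 1) ∧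
      ¬ ApproxIntegral 3 (fun k => correlation μ T f (fun _ => (k : ℤ))) ∧
      ¬ ApproxIntegral 1 (fun k => correlation μ T f (fun _ => (k : ℤ)))) ∧
    (∀ (ℓ : ℕ) (C : (Fin ℓ → ℤ) → ℂ) (B : ℝ), (∀ n, ‖C n‖ ≤ B) →
      ∃ (b : Fin ℓ → (Fin (ℓ + 1) → UnitAddCircle)) (F : (Fin (ℓ + 1) → UnitAddCircle) → ℂ),
        (∀ x, ‖F x‖ ≤ |B|) ∧ volume {x | ¬ ContinuousAt F x} = 0 ∧
        ∀ n, C n = F (∑ i, n i • b i)) ∧
    (∀ (ℓ : ℕ) (C : (Fin ℓ → ℤ) → ℂ),
      ∃ (b : Fin ℓ → (Fin ℓ → UnitAddCircle)) (F : ℕ → (Fin ℓ → UnitAddCircle) → ℂ),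
        (∀ j, Continuous (F j)) ∧ ∀ n, {j | F j (∑ i, n i • b i) ≠ 0}.Finite ∧
          C n = ∑' j, F j (∑ i, n i • b i)) := by
  refine ⟨?_, t_TRV1, t_TRV2⟩
  have hBLK : S_BLK := t_BLK t_MV t_FLD t_DM t_ABS t_UNI
  have hSYS : S_SYS := t_SYS t_LIM (t_REC hBLK)
  obtain ⟨X, iX, μ, iμ, T, f, ⟨s1, s2, s3, s4, s5⟩, hno⟩ :=
    t_MAIN2 hSYS (t_NIL t_WFE) t_CNT
  exact ⟨X, iX, μ, iμ, T, f, s1, s2, s3, s4, s5, hno, fun h1 => hno (approx_one_three h1)⟩

end Pool.Agent.Results.MP_b4ed41_an.NoIntegralRepresentation
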